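import Mathlib
import Pool.Agent.Helper614.PX

open Set Filter Topology TopologicalSpace

namespace Pool.Agent.Results.MP_f5adcb_gt.NotMinSpec

/-- `𝓑` is a pretty base of the space `X`: a base of clopen sets such that whenever countably many
members (the family `𝒞`) are each disjoint from each member of an arbitrary subfamily `𝒟`, some
member `W` contains all members of `𝒞` and misses all members of `𝒟`. -/
structure IsPrettyBase {X : Type*} [TopologicalSpace X] (𝓑 : Set (Set X)) : Prop where
  isBasis : IsTopologicalBasis 𝓑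
  isClopen : ∀ U ∈ 𝓑, IsClopen U
  nested : ∀ 𝒞 ⊆ 𝓑, ∀ 𝒟 ⊆ 𝓑, 𝒞.Countable → (∀ U ∈ 𝒞, ∀ V ∈ 𝒟, Disjoint U V) →
    ∃ W ∈ 𝓑, (∀ U ∈ 𝒞, U ⊆ W) ∧ ∀ V ∈ 𝒟, Disjoint W V

/-- The cotopology of a base `𝓑`: generated by the complements of the closures of its members. -/
abbrev cotopology {X : Type*} [TopologicalSpace X] (𝓑 : Set (Set X)) : TopologicalSpace X :=
  generateFrom {V | ∃ B ∈ 𝓑, V = (closure B)ᶜ}

/-- `X` has a cocompact pretty base: a pretty base whose cotopology is compact. -/
def HasCocompactPrettyBase (X : Type*) [TopologicalSpace X] : Prop :=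
  ∃ 𝓑 : Set (Set X), IsPrettyBase 𝓑 ∧ @CompactSpace X (cotopology 𝓑)

/-- The space of minimal prime ideals of `R`, with the hull-kernel (Zariski) topology, as a
subspace of the prime spectrum. -/
abbrev MinSpec (R : Type*) [CommRing R] : Type _ :=
  {x : PrimeSpectrum R // x.asIdeal ∈ minimalPrimes R}

/-- The countable annihilator condition: for every sequence `a` there is `b` whose annihilator is
the intersection of the annihilators of the `a n`. -/
def CAC (R : Type*) [CommRing R] : Prop :=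
  ∀ a : ℕ → R, ∃ b : R, ∀ x : R, b * x = 0 ↔ ∀ n, a n * x = 0

section minspec

variable {R : Type*} [CommRing R]

/-- The basic open sets of the space of minimal primes. -/
def hc (a : R) : Set (MinSpec R) := {x | a ∉ x.1.asIdeal}

theorem isBasis_hc : IsTopologicalBasis (Set.range (hc (R := R))) := by
  have h := isTopologicalBasis_subtype
    (PrimeSpectrum.isTopologicalBasis_basic_opens (R := R)) (fun x => x.asIdeal ∈ minimalPrimes R)
  convert h using 1
  ext U
  constructor
  · rintro ⟨a, rfl⟩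
    exact ⟨_, ⟨a, rfl⟩, rfl⟩
  · rintro ⟨_, ⟨a, rfl⟩, rfl⟩
    exact ⟨a, rfl⟩

theorem hc_mul (a b : R) : hc (a * b) = hc a ∩ hc b := by
  ext x
  have := x.1.isPrime
  simp only [hc, mem_ofPred_eq, mem_inter_iff, Ideal.IsPrime.mul_mem_iff_mem_or_mem, not_or]

variable [IsReduced R]

/-- a nonzero element of a reduced ring avoids some minimal prime -/
theorem exists_notMem {a : R} (ha : a ≠ 0) : (hc a).Nonempty := by
  by_contra hcon
  rw [Set.not_nonempty_iff_eq_empty] at hcon
  apply ha
  have h1 : a ∈ sInf (⊥ : Ideal R).minimalPrimes := by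
    rw [Submodule.mem_sInf]
    intro P hP
    by_contra haP
    have hprime : Ideal.IsPrime P := hP.1.1
    have h2 : (⟨⟨P, hprime⟩, hP⟩ : MinSpec R) ∈ hc a := haP
    rw [hcon] at h2
    exact h2
  rw [Ideal.sInf_minimalPrimes] at h1
  obtain ⟨n, hn⟩ := h1
  have h' : IsNilpotent a := ⟨n, by simpa using hn⟩
  exact h'.eq_zero

/-- an element of a minimal prime of a reduced ring is killed by an element outside it -/
theorem exists_mul_eq_zero {P : Ideal R} (hP : P ∈ minimalPrimes R) {a : R} (ha : a ∈ P) :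
    ∃ c, c ∉ P ∧ a * c = 0 := by
  have hprime : P.IsPrime := hP.1.1
  by_contra hcon
  push Not at hcon
  let S : Submonoid R := {
    carrier := {z | ∃ n c, c ∉ P ∧ z = a ^ n * c}
    one_mem' := ⟨0, 1, fun h => hprime.ne_top ((Ideal.eq_top_iff_one P).2 h), by simp⟩
    mul_mem' := by
      rintro _ _ ⟨n, c, hc, rfl⟩ ⟨m, c', hc', rfl⟩
      exact ⟨n + m, c * c', fun h => (hprime.mem_or_mem h).elim hc hc', by ring⟩ }
  have hS : Disjoint ((⊥ : Ideal R) : Set R) (S : Set R) := by
    rw [Set.disjoint_left]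
    rintro z hz ⟨n, c, hc, hzc⟩
    have hz0 : z = 0 := by simpa using hz
    rw [hz0] at hzc
    have h1 : (a * c) ^ (n + 1) = 0 := by
      rw [mul_pow, pow_succ, pow_succ]
      calc a ^ n * a * (c ^ n * c) = (a ^ n * c) * (a * c ^ n) := by ring
        _ = 0 := by rw [← hzc, zero_mul]
    have h2 : IsNilpotent (a * c) := ⟨_, h1⟩
    exact hcon c hc h2.eq_zero
  obtain ⟨Q, hQ, -, hQS⟩ := Ideal.exists_le_prime_disjoint (⊥ : Ideal R) S hS
  have hQP : Q ≤ P := by
    intro z hz
    by_contra hzP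
    exact Set.disjoint_left.1 hQS hz ⟨0, z, hzP, by simp⟩
  have hPQ : P ≤ Q := hP.2 ⟨hQ, bot_le⟩ hQP
  exact Set.disjoint_left.1 hQS (hPQ ha) ⟨1, 1,
    fun h => hprime.ne_top ((Ideal.eq_top_iff_one P).2 h), by simp⟩

theorem hc_inter_nonempty {a b : R} (h : a * b ≠ 0) : (hc a ∩ hc b).Nonempty := by
  rw [← hc_mul]; exact exists_notMem h

theorem isClosed_hc (a : R) : IsClosed (hc a) := by
  rw [← isOpen_compl_iff, isBasis_hc.isOpen_iff]
  intro x hx
  have hax : a ∈ x.1.asIdeal := by
    by_contra h; exact hx h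
  obtain ⟨c, hc1, hc2⟩ := exists_mul_eq_zero x.2 hax
  refine ⟨hc c, ⟨c, rfl⟩, hc1, ?_⟩
  intro y hy hy'
  have h3 : y ∈ hc (a * c) := by rw [hc_mul]; exact ⟨hy', hy⟩
  apply h3
  rw [hc2]
  exact y.1.asIdeal.zero_mem

/-- In a reduced ring with the countable annihilator condition the closure of a countable union
of basic sets is a basic set. -/
theorem closure_hc (hR : CAC R) (a : ℕ → R) : ∃ b : R, closure (⋃ n, hc (a n)) = hc b := by
  obtain ⟨b, hb⟩ := hR a
  refine ⟨b, Subset.antisymm ?_ ?_⟩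
  · refine closure_minimal ?_ (isClosed_hc b)
    refine iUnion_subset fun n => ?_
    intro x hx
    by_contra hbx
    have hbx' : b ∈ x.1.asIdeal := by
      by_contra h; exact hbx h
    obtain ⟨c, hc1, hc2⟩ := exists_mul_eq_zero x.2 hbx'
    have h3 := (hb c).1 hc2 n
    have hprime := x.1.isPrime
    have h4 : a n * c ∈ x.1.asIdeal := by rw [h3]; exact x.1.asIdeal.zero_mem
    exact (hprime.mem_or_mem h4).elim hx hc1
  · intro x hx
    rw [isBasis_hc.mem_closure_iff]
    rintro _ ⟨c, rfl⟩ hxc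
    by_contra hcon
    have h3 : ∀ n, a n * c = 0 := by
      intro n
      by_contra h
      obtain ⟨y, hy1, hy2⟩ := hc_inter_nonempty h
      exact hcon ⟨y, hy2, mem_iUnion.2 ⟨n, hy1⟩⟩
    have h4 : x ∈ hc (b * c) := by rw [hc_mul]; exact ⟨hx, hxc⟩
    apply h4
    rw [(hb c).2 h3]
    exact x.1.asIdeal.zero_mem

end minspec

/-- The main obstruction: our space is not the space of minimal primes of a reduced ring with
the countable annihilator condition. -/
theorem isEmpty_homeo (R : Type*) [CommRing R] [IsReduced R] (hR : CAC R) :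
    IsEmpty (Pool.Agent.Helper614.PC.Sp Pool.Agent.Helper614.PX.u
      Pool.Agent.Helper614.PX.small ≃ₜ MinSpec R) := by
  refine ⟨fun φ => ?_⟩
  let 𝓑 : Set (Set (Pool.Agent.Helper614.PC.Sp Pool.Agent.Helper614.PX.u
      Pool.Agent.Helper614.PX.small)) := Set.range fun a : R => φ ⁻¹' (hc a)
  have hopen : ∀ a : R, IsOpen (hc a) := fun a => isBasis_hc.isOpen ⟨a, rfl⟩
  refine Pool.Agent.Helper614.PX.neg 𝓑 ?_ ?_ ?_
  · refine isTopologicalBasis_of_isOpen_of_nhds ?_ ?_
    · rintro _ ⟨a, rfl⟩
      exact (hopen a).preimage φ.continuous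
    · intro x U hx hU
      have h1 : IsOpen (φ '' U) := φ.isOpenMap U hU
      obtain ⟨_, ⟨a, rfl⟩, hxa, haU⟩ := isBasis_hc.exists_subset_of_mem_open
        (mem_image_of_mem φ hx) h1
      refine ⟨_, ⟨a, rfl⟩, hxa, ?_⟩
      intro y hy
      obtain ⟨z, hz, hzy⟩ := haU hy
      rwa [φ.injective hzy] at hz
  · rintro _ ⟨a, rfl⟩ _ ⟨b, rfl⟩
    exact ⟨a * b, by simp only [hc_mul, preimage_inter]⟩
  · intro f hf
    choose a ha using hf
    obtain ⟨b, hb⟩ := closure_hc hR a
    have h1 : (⋃ n, f n) = φ ⁻¹' (⋃ n, hc (a n)) := by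
      rw [preimage_iUnion]
      exact iUnion_congr fun n => (ha n).symm
    rw [h1, ← φ.preimage_closure, hb]
    exact (hopen b).preimage φ.continuous

/-- Rings of continuous functions are reduced. -/
theorem isReduced_C (Y : Type*) [TopologicalSpace Y] : IsReduced C(Y, ℝ) := by
  refine ⟨fun f => ?_⟩
  rintro ⟨n, hn⟩
  ext y
  have h1 : (f y) ^ n = 0 := by
    have := congrArg (fun g : C(Y, ℝ) => g y) hn
    simpa using this
  have h' : IsNilpotent (f y) := ⟨n, h1⟩
  exact h'.eq_zero

/-- Rings of continuous functions satisfy the countable annihilator condition. -/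
theorem cac_C (Y : Type*) [TopologicalSpace Y] : CAC C(Y, ℝ) := by
  intro a
  have hsum : Summable fun n : ℕ => (1 / 2 : ℝ) ^ n := summable_geometric_two
  have hbound : ∀ n y, ‖(1 / 2 : ℝ) ^ n * min |a n y| 1‖ ≤ (1 / 2 : ℝ) ^ n := by
    intro n y
    have h0 : 0 ≤ min |a n y| 1 := le_min (abs_nonneg _) zero_le_one
    rw [Real.norm_of_nonneg (by positivity)]
    exact mul_le_of_le_one_right (by positivity) (min_le_right _ _)
  have hcont : Continuous fun y => ∑' n, (1 / 2 : ℝ) ^ n * min |a n y| 1 :=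
    continuous_tsum (fun n => by fun_prop) hsum hbound
  let g : C(Y, ℝ) := ⟨fun y => ∑' n, (1 / 2 : ℝ) ^ n * min |a n y| 1, hcont⟩
  have hg : ∀ y, g y = 0 ↔ ∀ n, a n y = 0 := by
    intro y
    have hs : Summable fun n => (1 / 2 : ℝ) ^ n * min |a n y| 1 :=
      Summable.of_norm_bounded hsum fun n => hbound n y
    have hnn : ∀ n, 0 ≤ (1 / 2 : ℝ) ^ n * min |a n y| 1 := fun n =>
      mul_nonneg (by positivity) (le_min (abs_nonneg _) zero_le_one)
    constructor
    · intro h n
      have h1 : (fun n => (1 / 2 : ℝ) ^ n * min |a n y| 1) = 0 :=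
        (hasSum_zero_iff_of_nonneg hnn).1 (by have := hs.hasSum; rwa [show
          (∑' n, (1 / 2 : ℝ) ^ n * min |a n y| 1) = 0 from h] at this)
      have h2 : (1 / 2 : ℝ) ^ n * min |a n y| 1 = 0 := congrFun h1 n
      have h3 : min |a n y| 1 = 0 := (mul_eq_zero.1 h2).resolve_left (by positivity)
      have h4 : |a n y| = 0 := by
        rcases min_choice |a n y| 1 with h | h
        · rwa [h] at h3
        · rw [h] at h3; exact (one_ne_zero h3).elim
      exact abs_eq_zero.1 h4
    · intro h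
      change (∑' n, (1 / 2 : ℝ) ^ n * min |a n y| 1) = 0
      simp [h]
  refine ⟨g, fun x => ?_⟩
  constructor
  · intro h n
    ext y
    have h1 : g y * x y = 0 := congrArg (fun k : C(Y, ℝ) => k y) h
    change a n y * x y = 0
    rcases mul_eq_zero.1 h1 with h2 | h2
    · rw [(hg y).1 h2 n, zero_mul]
    · rw [h2, mul_zero]
  · intro h
    ext y
    change g y * x y = 0
    by_cases hx : x y = 0
    · rw [hx, mul_zero]
    · have h3 : g y = 0 := (hg y).2 fun n => by
        have h1 : a n y * x y = 0 := congrArg (fun k : C(Y, ℝ) => k y) (h n)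
        exact (mul_eq_zero.1 h1).resolve_right hx
      rw [h3, zero_mul]

open Pool.Agent.Helper614.PC Pool.Agent.Helper614.PX in
/-- There is a Tychonoff space with a cocompact pretty base that is homeomorphic neither to the
space of minimal prime ideals of a ring of continuous functions nor to the space of minimal prime
ideals of any reduced commutative ring satisfying the countable annihilator condition. -/
theorem result.{v, w} : ∃ (X : Type) (_ : TopologicalSpace X), T35Space X ∧
    HasCocompactPrettyBase X ∧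
    (∀ (Y : Type v) [TopologicalSpace Y], IsEmpty (X ≃ₜ MinSpec C(Y, ℝ))) ∧
    (∀ (R : Type w) [CommRing R] [IsReduced R], CAC R → IsEmpty (X ≃ₜ MinSpec R)) := by
  refine ⟨Sp u small, inferInstance, t35 good, ?_, ?_, ?_⟩
  · refine ⟨hat u small '' L, ⟨isBasis_lat good, ?_, ?_⟩, cocompact good⟩
    · rintro _ ⟨E, hE, rfl⟩; exact isClopen_hat good hE
    · intro 𝒞 h𝒞 𝒟 h𝒟 hc hd
      exact nested good 𝒞 𝒟 h𝒞 h𝒟 hc hd
  · intro Y _
    have := isReduced_C Y
    exact isEmpty_homeo C(Y, ℝ) (cac_C Y)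
  · intro R _ _ hR
    exact isEmpty_homeo R hR

end Pool.Agent.Results.MP_f5adcb_gt.NotMinSpec
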